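import Mathlib

set_option autoImplicit false

namespace Pool.Agent.X280.GL3

open Matrix

/-- explicit 3x3 matrices over F_2 -/
structure M9 where
  a : ZMod 2
  b : ZMod 2
  c : ZMod 2
  d : ZMod 2
  e : ZMod 2
  f : ZMod 2
  g : ZMod 2
  h : ZMod 2
  i : ZMod 2
deriving DecidableEq

namespace M9

def mul (x y : M9) : M9 :=
  ⟨x.a * y.a + x.b * y.d + x.c * y.g, x.a * y.b + x.b * y.e + x.c * y.h,
   x.a * y.c + x.b * y.f + x.c * y.i,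
   x.d * y.a + x.e * y.d + x.f * y.g, x.d * y.b + x.e * y.e + x.f * y.h,
   x.d * y.c + x.e * y.f + x.f * y.i,
   x.g * y.a + x.h * y.d + x.i * y.g, x.g * y.b + x.h * y.e + x.i * y.h,
   x.g * y.c + x.h * y.f + x.i * y.i⟩

def add (x y : M9) : M9 :=
  ⟨x.a + y.a, x.b + y.b, x.c + y.c, x.d + y.d, x.e + y.e, x.f + y.f, x.g + y.g, x.h + y.h,
    x.i + y.i⟩

def det (x : M9) : ZMod 2 :=
  x.a * (x.e * x.i - x.f * x.h) - x.b * (x.d * x.i - x.f * x.g) + x.c * (x.d * x.h - x.e * x.g)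

def one : M9 := ⟨1, 0, 0, 0, 1, 0, 0, 0, 1⟩

def cands (x : M9) : List M9 :=
  [x, add one x, add one (add x (mul x x)),
   ⟨0, 0, 1, 0, 1, 0, 1, 0, 0⟩, ⟨0, 0, 1, 1, 1, 1, 1, 0, 0⟩, ⟨0, 1, 0, 1, 0, 0, 1, 1, 1⟩,
   ⟨1, 0, 0, 1, 1, 1, 0, 0, 1⟩, ⟨1, 1, 1, 0, 0, 1, 0, 1, 0⟩, ⟨0, 1, 0, 1, 0, 0, 0, 0, 1⟩,
   ⟨0, 1, 1, 0, 1, 0, 1, 1, 0⟩, ⟨1, 0, 0, 0, 0, 1, 0, 1, 0⟩, ⟨0, 1, 1, 1, 0, 1, 0, 0, 1⟩,
   ⟨1, 0, 0, 0, 1, 0, 1, 1, 1⟩]

def good (x s : M9) : Bool := decide (det s = 1) && (decide (s ≠ one) && decide (mul s x = mul x s))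

theorem key : ∀ a b c d e f g h i : ZMod 2,
    (cands ⟨a, b, c, d, e, f, g, h, i⟩).any (good ⟨a, b, c, d, e, f, g, h, i⟩) = true := by
  decide +kernel

end M9

theorem comm_two (β : Matrix (Fin 3) (Fin 3) (ZMod 2)) :
    ∃ s : GL (Fin 3) (ZMod 2), s ≠ 1 ∧ s.val * β = β * s.val := by
  have := M9.key (β 0 0) (β 0 1) (β 0 2) (β 1 0) (β 1 1) (β 1 2) (β 2 0) (β 2 1) (β 2 2)
  rw [List.any_eq_true] at this
  obtain ⟨s, -, hs⟩ := this
  simp only [M9.good, Bool.and_eq_true, decide_eq_true_eq] at hs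
  obtain ⟨hdet, hne, hcomm⟩ := hs
  let S : Matrix (Fin 3) (Fin 3) (ZMod 2) := !![s.a, s.b, s.c; s.d, s.e, s.f; s.g, s.h, s.i]
  have hS : S.det = 1 := by
    rw [← hdet]
    simp only [S, Matrix.det_fin_three, M9.det]
    simp
    ring
  let U : GL (Fin 3) (ZMod 2) := Matrix.GeneralLinearGroup.mkOfDetNeZero S (by rw [hS]; decide)
  have hU : U.val = S := rfl
  refine ⟨U, ?_, ?_⟩
  · intro h
    apply hne
    have h1 : S = 1 := by rw [← hU, h]; rfl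
    have e : ∀ i j, S i j = (1 : Matrix (Fin 3) (Fin 3) (ZMod 2)) i j := fun i j => by rw [h1]
    have e00 := e 0 0
    have e01 := e 0 1
    have e02 := e 0 2
    have e10 := e 1 0
    have e11 := e 1 1
    have e12 := e 1 2
    have e20 := e 2 0
    have e21 := e 2 1
    have e22 := e 2 2
    simp [S] at e00 e01 e02 e10 e11 e12 e20 e21 e22
    cases s
    simp_all [M9.one]
  · rw [hU]
    simp only [M9.mul, M9.mk.injEq] at hcomm
    obtain ⟨h1, h2, h3, h4, h5, h6, h7, h8, h9⟩ := hcomm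
    ext i j
    fin_cases i <;> fin_cases j <;> simp [S, Matrix.mul_apply, Fin.sum_univ_three] <;> assumption

end Pool.Agent.X280.GL3
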