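import Mathlib

set_option autoImplicit false

namespace Pool.Agent.X280.GL3

open Matrix

/-- An abstract split extension of `GL₃(k)` by the additive group of `3 × 3` matrices. -/
structure Ext (k : Type) [Field k] (G : Type) [Group G] where
  π : G →* GL (Fin 3) k
  δ : G → Matrix (Fin 3) (Fin 3) k
  hδ : ∀ g g', δ (g * g') = δ g + (π g).val * δ g' * ((π g)⁻¹).val
  lift : GL (Fin 3) k → Matrix (Fin 3) (Fin 3) k → G
  π_lift : ∀ s X, π (lift s X) = s
  δ_lift : ∀ s X, δ (lift s X) = X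
  ext' : ∀ g g', π g = π g' → δ g = δ g' → g = g'

namespace Ext

variable {k : Type} [Field k] {G : Type} [Group G] (E : Ext k G)

theorem δ_one : E.δ 1 = 0 := by
  have := E.hδ 1 1
  simp at this
  exact this

/-- the translation element -/
def tr (X : Matrix (Fin 3) (Fin 3) k) : G := E.lift 1 X

/-- the section -/
def sec (s : GL (Fin 3) k) : G := E.lift s 0

@[simp] theorem π_tr (X) : E.π (E.tr X) = 1 := E.π_lift _ _
@[simp] theorem δ_tr (X) : E.δ (E.tr X) = X := E.δ_lift _ _
@[simp] theorem π_sec (s) : E.π (E.sec s) = s := E.π_lift _ _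
@[simp] theorem δ_sec (s) : E.δ (E.sec s) = 0 := E.δ_lift _ _

theorem tr_add (X Y) : E.tr (X + Y) = E.tr X * E.tr Y := by
  apply E.ext'
  · simp
  · simp [E.hδ]

theorem tr_zero : E.tr 0 = 1 := by
  apply E.ext'
  · simp
  · simp [E.δ_one]

theorem decomp (g : G) : g = E.sec (E.π g) * E.tr (((E.π g)⁻¹).val * E.δ g * (E.π g).val) := by
  apply E.ext'
  · simp
  · rw [E.hδ]
    simp only [δ_sec, π_sec, δ_tr, zero_add]
    have h1 : (E.π g).val * ((E.π g)⁻¹).val = 1 := by
      rw [← Units.val_mul, mul_inv_cancel, Units.val_one]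
    calc E.δ g = ((E.π g).val * ((E.π g)⁻¹).val) * E.δ g * ((E.π g).val * ((E.π g)⁻¹).val) := by
          rw [h1]; simp
      _ = _ := by simp only [Matrix.mul_assoc]

theorem tr_mul_sec (X : Matrix (Fin 3) (Fin 3) k) (s : GL (Fin 3) k) :
    E.tr X * E.sec s = E.sec s * E.tr ((s⁻¹).val * X * s.val) := by
  have h := E.decomp (E.tr X * E.sec s)
  rw [h]
  simp [E.hδ]

theorem sec_mul (s t : GL (Fin 3) k) : E.sec (s * t) = E.sec s * E.sec t := by
  apply E.ext'
  · simp
  · simp [E.hδ]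

end Ext

end Pool.Agent.X280.GL3
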