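import Mathlib
import Pool.Agent.X280.GL3.Abs

set_option autoImplicit false
set_option linter.unusedSectionVars false

namespace Pool.Agent.X280.GL3

open Matrix

section charsum

variable {k : Type} [Field k] [Fintype k] [DecidableEq k]

/-- trace pairing as additive hom -/
def pairHom (α : Matrix (Fin 3) (Fin 3) k) : Matrix (Fin 3) (Fin 3) k →+ k where
  toFun X := trace (α * X)
  map_zero' := by simp
  map_add' := by intro X Y; rw [Matrix.mul_add, trace_add]

theorem pairHom_apply (α X : Matrix (Fin 3) (Fin 3) k) : pairHom α X = trace (α * X) := rfl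

theorem exists_pair (α : Matrix (Fin 3) (Fin 3) k) (hα : α ≠ 0) (c : k) :
    ∃ X, trace (α * X) = c := by
  have : ∃ i j, α i j ≠ 0 := by
    by_contra h
    push Not at h
    exact hα (by ext i j; simpa using h i j)
  obtain ⟨i, j, hij⟩ := this
  refine ⟨Matrix.single j i (c / α i j), ?_⟩
  rw [Matrix.trace_mul_comm, Matrix.trace_single_mul, smul_eq_mul]
  field_simp

theorem sum_char (ψ : AddChar k ℂ) (hψ : ∃ c, ψ c ≠ 1) (α : Matrix (Fin 3) (Fin 3) k)
    (hα : α ≠ 0) : ∑ X : Matrix (Fin 3) (Fin 3) k, ψ (trace (α * X)) = 0 := by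
  have : (ψ.compAddMonoidHom (pairHom α)) ≠ 0 := by
    rw [AddChar.ne_zero_iff]
    obtain ⟨c, hc⟩ := hψ
    obtain ⟨X, hX⟩ := exists_pair α hα c
    refine ⟨X, ?_⟩
    rw [AddChar.compAddMonoidHom_apply, pairHom_apply, hX]
    exact hc
  exact AddChar.sum_eq_zero_iff_ne_zero.2 this

theorem sum_char' (ψ : AddChar k ℂ) (hψ : ∃ c, ψ c ≠ 1) (X : Matrix (Fin 3) (Fin 3) k)
    (hX : X ≠ 0) : ∑ α : Matrix (Fin 3) (Fin 3) k, ψ (trace (α * X)) = 0 := by
  rw [← sum_char ψ hψ X hX]
  exact Finset.sum_congr rfl fun α _ => by rw [Matrix.trace_mul_comm]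

end charsum

section upper

variable {k : Type} [Field k] [Fintype k] [DecidableEq k] {G : Type} [Group G] (E : Ext k G)
  {V : Type} [AddCommGroup V] [Module ℂ V] (ρ : Representation ℂ G V)

/-- the weight space -/
def wt (ψ : AddChar k ℂ) (β : Matrix (Fin 3) (Fin 3) k) : Submodule ℂ V where
  carrier := {w | ∀ X, ρ (E.tr X) w = ψ (trace (β * X)) • w}
  add_mem' := by
    intro a b ha hb X
    rw [map_add, ha X, hb X, smul_add]
  zero_mem' := by intro X; simp
  smul_mem' := by
    intro c a ha X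
    rw [map_smul, ha X, smul_comm]

theorem exists_wt [Nontrivial V] (ψ : AddChar k ℂ) (hψ : ∃ c, ψ c ≠ 1) :
    ∃ β, wt E ρ ψ β ≠ ⊥ := by
  classical
  obtain ⟨v, hv⟩ := exists_ne (0 : V)
  let P : Matrix (Fin 3) (Fin 3) k → V := fun β =>
    ∑ X : Matrix (Fin 3) (Fin 3) k, ψ (trace (β * (-X))) • ρ (E.tr X) v
  have hP : ∀ β, P β ∈ wt E ρ ψ β := by
    intro β Y
    simp only [P]
    rw [map_sum, Finset.smul_sum]
    rw [← Equiv.sum_comp (Equiv.addRight Y)
      (fun X => ψ (trace (β * Y)) • ψ (trace (β * (-X))) • ρ (E.tr X) v)]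
    refine Finset.sum_congr rfl fun X _ => ?_
    rw [map_smul, ← Module.End.mul_apply, ← map_mul, ← E.tr_add, Equiv.coe_addRight, smul_smul,
      ← AddChar.map_add_eq_mul, ← trace_add, ← Matrix.mul_add, add_comm Y X]
    congr 4
    simp
  have hsum : ∑ β, P β = (Fintype.card (Matrix (Fin 3) (Fin 3) k) : ℂ) • v := by
    simp only [P]
    rw [Finset.sum_comm]
    rw [Finset.sum_eq_single (0 : Matrix (Fin 3) (Fin 3) k)]
    · simp [E.tr_zero, ← Nat.cast_smul_eq_nsmul ℂ]
    · intro X _ hX
      rw [← Finset.sum_smul, sum_char' ψ hψ (-X) (neg_ne_zero.2 hX), zero_smul]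
    · intro h; exact absurd (Finset.mem_univ _) h
  by_contra hcon
  push Not at hcon
  have h0 : ∀ β, P β = 0 := by
    intro β
    have := hP β
    rw [hcon β] at this
    simpa using this
  rw [Finset.sum_eq_zero (fun β _ => h0 β)] at hsum
  have hc : (Fintype.card (Matrix (Fin 3) (Fin 3) k) : ℂ) ≠ 0 := by
    exact_mod_cast Fintype.card_ne_zero
  exact (smul_ne_zero hc hv) hsum.symm

theorem wt_sec (ψ : AddChar k ℂ) (β : Matrix (Fin 3) (Fin 3) k) (s : GL (Fin 3) k)
    (hs : s.val * β = β * s.val) {w : V} (hw : w ∈ wt E ρ ψ β) :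
    ρ (E.sec s) w ∈ wt E ρ ψ β := by
  intro X
  rw [← Module.End.mul_apply, ← map_mul, E.tr_mul_sec, map_mul, Module.End.mul_apply, hw, map_smul]
  congr 2
  have hss : s.val * (s⁻¹).val = 1 := by rw [← Units.val_mul, mul_inv_cancel, Units.val_one]
  calc trace (β * ((s⁻¹).val * X * s.val)) = trace ((s.val * β) * ((s⁻¹).val * X)) := by
        rw [Matrix.trace_mul_comm (s.val * β), ← Matrix.mul_assoc β, Matrix.trace_mul_comm,
          ← Matrix.mul_assoc, Matrix.trace_mul_comm]
    _ = trace (β * (s.val * (s⁻¹).val) * X) := by rw [hs]; simp only [Matrix.mul_assoc]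
    _ = trace (β * X) := by rw [hss, mul_one]

include E in
/-- Upper bound: if every matrix commutes with a nontrivial element of `GL₃(k)`, an irreducible
representation has dimension `< |GL₃(k)|`. -/
theorem upper (hirr : ∀ W : Submodule ℂ V, (∀ g v, v ∈ W → ρ g v ∈ W) → W = ⊥ ∨ W = ⊤)
    [Nontrivial V] [FiniteDimensional ℂ V]
    (ψ : AddChar k ℂ) (hψ : ∃ c, ψ c ≠ 1)
    (hcomm : ∀ β : Matrix (Fin 3) (Fin 3) k, ∃ s : GL (Fin 3) k, s ≠ 1 ∧ s.val * β = β * s.val) :
    Module.finrank ℂ V < Nat.card (GL (Fin 3) k) := by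
  classical
  obtain ⟨β, hβ⟩ := exists_wt E ρ ψ hψ
  obtain ⟨s, hs1, hs⟩ := hcomm β
  -- restrict ρ (sec s) to the weight space
  let T : Module.End ℂ (wt E ρ ψ β) :=
    (ρ (E.sec s)).restrict (fun w hw => wt_sec E ρ ψ β s hs hw)
  have : Nontrivial (wt E ρ ψ β) := Submodule.nontrivial_iff_ne_bot.2 hβ
  obtain ⟨c, hc⟩ := Module.End.exists_eigenvalue T
  obtain ⟨v', hv'⟩ := hc.exists_hasEigenvector
  obtain ⟨v, hvm⟩ := v'
  have hv0 : v ≠ 0 := by
    intro h
    exact hv'.2 (Subtype.ext h)
  have hsv : ρ (E.sec s) v = c • v := by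
    have := hv'.apply_eq_smul
    exact congrArg Subtype.val this
  -- the spanning family
  let u : {h : GL (Fin 3) k // h ≠ s} → V := fun h => ρ (E.sec h.1) v
  have hall : ∀ h : GL (Fin 3) k, ρ (E.sec h) v ∈ Submodule.span ℂ (Set.range u) := by
    intro h
    by_cases hh : h = s
    · rw [hh, hsv]
      apply Submodule.smul_mem
      have h1 : E.sec (1 : GL (Fin 3) k) = 1 := by
        apply E.ext'
        · simp
        · simp [E.δ_one]
      have : v = u ⟨1, fun h => hs1 h.symm⟩ := by simp [u, h1]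
      rw [this]
      exact Submodule.subset_span ⟨_, rfl⟩
    · exact Submodule.subset_span ⟨⟨h, hh⟩, rfl⟩
  have hinv : ∀ g w, w ∈ Submodule.span ℂ (Set.range u) → ρ g w ∈ Submodule.span ℂ (Set.range u) := by
    intro g w hw
    induction hw using Submodule.span_induction with
    | mem x hx =>
      obtain ⟨h, rfl⟩ := hx
      simp only [u]
      rw [← Module.End.mul_apply, ← map_mul, E.decomp (g * E.sec h.1), map_mul,
        Module.End.mul_apply, hvm, map_smul]
      exact Submodule.smul_mem _ _ (hall _)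
    | zero => simp
    | add x y _ _ hx hy => rw [map_add]; exact Submodule.add_mem _ hx hy
    | smul a x _ hx => rw [map_smul]; exact Submodule.smul_mem _ _ hx
  have htop : Submodule.span ℂ (Set.range u) = ⊤ := by
    rcases hirr _ hinv with h | h
    · exfalso
      have h1 : E.sec (1 : GL (Fin 3) k) = 1 := by
        apply E.ext'
        · simp
        · simp [E.δ_one]
      have := hall 1
      rw [h, h1] at this
      simp at this
      exact hv0 this
    · exact h
  have hle : Module.finrank ℂ V ≤ Fintype.card {h : GL (Fin 3) k // h ≠ s} := by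
    rw [← finrank_top ℂ V, ← htop]
    exact finrank_range_le_card u
  refine lt_of_le_of_lt hle ?_
  rw [Nat.card_eq_fintype_card]
  exact Fintype.card_subtype_lt (x := s) (by simp)

end upper

end Pool.Agent.X280.GL3
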