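import Mathlib
import Pool.Agent.X280.GL3.Upper

set_option autoImplicit false
set_option linter.unusedSectionVars false

namespace Pool.Agent.X280.GL3

open Matrix

/-- wrapper for matrices with conjugation action -/
@[ext] structure CM (k : Type) where
  val : Matrix (Fin 3) (Fin 3) k

variable {k : Type} [Field k]

noncomputable instance : MulAction (GL (Fin 3) k) (CM k) where
  smul s X := ⟨s.val * X.val * (s⁻¹).val⟩
  one_smul X := by
    apply CM.ext
    change (1 : GL (Fin 3) k).val * X.val * ((1 : GL (Fin 3) k)⁻¹).val = _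
    simp
  mul_smul s t X := by
    apply CM.ext
    change (s * t).val * X.val * ((s * t)⁻¹).val = s.val * (t.val * X.val * (t⁻¹).val) * (s⁻¹).val
    rw [_root_.mul_inv_rev, Units.val_mul, Units.val_mul]
    simp only [Matrix.mul_assoc]

theorem smul_val (s : GL (Fin 3) k) (X : CM k) : (s • X).val = s.val * X.val * (s⁻¹).val := rfl

variable [Fintype k] [DecidableEq k]

noncomputable instance : Fintype (CM k) :=
  Fintype.ofInjective (fun X : CM k => X.val) (fun _ _ h => CM.ext h)

/-- orbit -/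
abbrev Orb (β : CM k) := MulAction.orbit (GL (Fin 3) k) β

noncomputable instance (β : CM k) : Fintype (Orb β) := Fintype.ofFinite _

variable {G : Type} [Group G] (E : Ext k G)

/-- the representation on functions on an orbit -/
noncomputable def rep (ψ : AddChar k ℂ) (β : CM k) : Representation ℂ G (Orb β → ℂ) where
  toFun g :=
    { toFun := fun f γ => ψ (trace (γ.1.val * E.δ g)) * f ((E.π g)⁻¹ • γ)
      map_add' := by intro f f'; ext γ; simp [mul_add]
      map_smul' := by
        intro c f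
        ext γ
        simp only [Pi.smul_apply, smul_eq_mul, RingHom.id_apply]
        ring }
  map_one' := by
    ext f γ
    simp [E.δ_one]
  map_mul' := by
    intro g g'
    refine LinearMap.ext fun f => ?_
    funext γ
    change ψ (trace (γ.1.val * E.δ (g * g'))) * f ((E.π (g * g'))⁻¹ • γ) =
      ψ (trace (γ.1.val * E.δ g)) * (ψ (trace (((E.π g)⁻¹ • γ).1.val * E.δ g')) *
        f ((E.π g')⁻¹ • (E.π g)⁻¹ • γ))
    rw [E.hδ, map_mul, _root_.mul_inv_rev, mul_smul, Matrix.mul_add, trace_add, AddChar.map_add_eq_mul,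
      mul_assoc]
    congr 3
    have : (((E.π g)⁻¹ • γ).1.val) = ((E.π g)⁻¹).val * γ.1.val * (E.π g).val := by
      change ((E.π g)⁻¹ • γ.1).val = _
      rw [smul_val, inv_inv]
    rw [this]
    calc trace (γ.1.val * ((E.π g).val * E.δ g' * ((E.π g)⁻¹).val))
        = trace ((γ.1.val * (E.π g).val * E.δ g') * ((E.π g)⁻¹).val) := by
          simp only [Matrix.mul_assoc]
      _ = _ := by rw [Matrix.trace_mul_comm]; simp only [Matrix.mul_assoc]

theorem rep_apply (ψ : AddChar k ℂ) (β : CM k) (g : G) (f : Orb β → ℂ) (γ : Orb β) :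
    rep E ψ β g f γ = ψ (trace (γ.1.val * E.δ g)) * f ((E.π g)⁻¹ • γ) := rfl

theorem rep_irr (ψ : AddChar k ℂ) (hψ : ∃ c, ψ c ≠ 1) (β : CM k)
    (W : Submodule ℂ (Orb β → ℂ)) (hW : ∀ g v, v ∈ W → rep E ψ β g v ∈ W) : W = ⊥ ∨ W = ⊤ := by
  classical
  by_cases hbot : W = ⊥
  · exact Or.inl hbot
  right
  obtain ⟨f, hf, hf0⟩ := Submodule.exists_mem_ne_zero_of_ne_bot hbot
  obtain ⟨γ₀, hγ₀⟩ : ∃ γ, f γ ≠ 0 := by
    by_contra h
    push Not at h
    exact hf0 (funext h)
  have h1 : ∑ X : Matrix (Fin 3) (Fin 3) k, ψ (trace (γ₀.1.val * (-X))) • rep E ψ β (E.tr X) f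
      ∈ W := Submodule.sum_mem _ fun X _ => Submodule.smul_mem _ _ (hW _ _ hf)
  have h2 : ∑ X : Matrix (Fin 3) (Fin 3) k, ψ (trace (γ₀.1.val * (-X))) • rep E ψ β (E.tr X) f
      = ((Fintype.card (Matrix (Fin 3) (Fin 3) k) : ℂ) * f γ₀) • Pi.single γ₀ (1 : ℂ) := by
    funext γ
    rw [Finset.sum_apply]
    simp only [Pi.smul_apply, smul_eq_mul, rep_apply, Ext.δ_tr, Ext.π_tr, inv_one, one_smul]
    have : ∀ X : Matrix (Fin 3) (Fin 3) k,
        ψ (trace (γ₀.1.val * (-X))) * (ψ (trace (γ.1.val * X)) * f γ) =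
        ψ (trace ((γ.1.val - γ₀.1.val) * X)) * f γ := by
      intro X
      rw [← mul_assoc, ← AddChar.map_add_eq_mul, ← trace_add]
      congr 3
      rw [Matrix.sub_mul, Matrix.mul_neg]
      abel_nf
    rw [Finset.sum_congr rfl fun X _ => this X, ← Finset.sum_mul]
    by_cases hγ : γ = γ₀
    · subst hγ
      simp
    · have hne : γ.1.val - γ₀.1.val ≠ 0 := by
        intro h
        apply hγ
        apply Subtype.ext
        apply CM.ext
        exact sub_eq_zero.1 h
      rw [sum_char ψ hψ _ hne]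
      simp [hγ]
  rw [h2] at h1
  have hc : ((Fintype.card (Matrix (Fin 3) (Fin 3) k) : ℂ) * f γ₀) ≠ 0 := by
    apply mul_ne_zero _ hγ₀
    exact_mod_cast Fintype.card_ne_zero
  have h3 : (Pi.single γ₀ (1 : ℂ) : Orb β → ℂ) ∈ W := (Submodule.smul_mem_iff _ hc).1 h1
  have h4 : ∀ γ : Orb β, (Pi.single γ (1 : ℂ) : Orb β → ℂ) ∈ W := by
    intro γ
    obtain ⟨s, hs⟩ := MulAction.exists_smul_eq (GL (Fin 3) k) γ₀ γ
    have := hW (E.sec s) _ h3
    convert this using 1
    funext γ'
    rw [rep_apply]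
    simp only [Ext.δ_sec, Ext.π_sec, Matrix.mul_zero, trace_zero, AddChar.map_zero_eq_one, one_mul]
    by_cases h : γ' = γ
    · subst h
      rw [← hs, inv_smul_smul]
      simp
    · have : s⁻¹ • γ' ≠ γ₀ := by
        intro h'
        apply h
        rw [← hs, ← h', smul_inv_smul]
      simp [h, this]
  rw [eq_top_iff]
  intro f' _
  have : f' = ∑ γ, f' γ • (Pi.single γ (1 : ℂ) : Orb β → ℂ) := by
    funext γ
    rw [Finset.sum_apply]
    simp [Pi.single_apply]
  rw [this]
  exact Submodule.sum_mem _ fun γ _ => Submodule.smul_mem _ _ (h4 γ)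

theorem rep_tr_ne (ψ : AddChar k ℂ) (hψ : ∃ c, ψ c ≠ 1) (β : CM k) (hβ : β.val ≠ 0) :
    ∃ X, rep E ψ β (E.tr X) ≠ 1 := by
  obtain ⟨c, hc⟩ := hψ
  obtain ⟨X, hX⟩ := exists_pair β.val hβ c
  refine ⟨X, fun h => hc ?_⟩
  have h1 := congrFun (LinearMap.congr_fun h (fun _ => (1 : ℂ))) ⟨β, MulAction.mem_orbit_self β⟩
  rw [rep_apply] at h1
  simpa [hX] using h1

/-- The stabiliser of a diagonal matrix with distinct entries. -/
theorem card_stab (d : Fin 3 → k) (hd : Function.Injective d) :
    Nat.card (MulAction.stabilizer (GL (Fin 3) k) (⟨diagonal d⟩ : CM k)) =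
      (Fintype.card k - 1) ^ 3 := by
  have hmem : ∀ s : GL (Fin 3) k, s ∈ MulAction.stabilizer (GL (Fin 3) k) (⟨diagonal d⟩ : CM k) ↔
      s.val * diagonal d = diagonal d * s.val := by
    intro s
    rw [MulAction.mem_stabilizer_iff]
    constructor
    · intro h
      have h1 := congrArg CM.val h
      rw [smul_val] at h1
      calc s.val * diagonal d = s.val * diagonal d * ((s⁻¹).val * s.val) := by
            rw [← Units.val_mul, inv_mul_cancel, Units.val_one, mul_one]
        _ = (s.val * diagonal d * (s⁻¹).val) * s.val := by simp only [Matrix.mul_assoc]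
        _ = _ := by rw [h1]
    · intro h
      apply CM.ext
      rw [smul_val]
      change s.val * diagonal d * (s⁻¹).val = diagonal d
      rw [h, Matrix.mul_assoc, ← Units.val_mul, mul_inv_cancel, Units.val_one, mul_one]
  let f : (Fin 3 → k)ˣ → MulAction.stabilizer (GL (Fin 3) k) (⟨diagonal d⟩ : CM k) := fun u =>
    ⟨Units.map (Matrix.diagonalRingHom (Fin 3) k).toMonoidHom u, by
      rw [hmem]
      change diagonal u.val * diagonal d = diagonal d * diagonal u.val
      rw [diagonal_mul_diagonal, diagonal_mul_diagonal]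
      congr 1
      funext i
      exact mul_comm _ _⟩
  have hf : Function.Bijective f := by
    constructor
    · intro u v h
      have h1 : diagonal u.val = diagonal v.val := congrArg (fun x => x.1.val) h
      exact Units.ext (diagonal_injective h1)
    · rintro ⟨s, hs⟩
      rw [hmem] at hs
      have hoff : ∀ i j, i ≠ j → s.val i j = 0 := by
        intro i j hij
        have h1 := congrFun (congrFun hs i) j
        rw [Matrix.mul_diagonal, Matrix.diagonal_mul] at h1
        have h2 : (d j - d i) * s.val i j = 0 := by rw [sub_mul, mul_comm (d j), h1, sub_self]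
        rcases mul_eq_zero.1 h2 with h | h
        · exact absurd (hd (sub_eq_zero.1 h)) (Ne.symm hij)
        · exact h
      have hsd : s.val = diagonal (fun i => s.val i i) := by
        ext i j
        by_cases h : i = j
        · subst h; simp
        · rw [hoff i j h, diagonal_apply_ne _ h]
      have hdet : IsUnit (s.val.det) := (Matrix.isUnit_iff_isUnit_det _).1 s.isUnit
      rw [hsd, det_diagonal] at hdet
      have hu : IsUnit (fun i => s.val i i) := by
        rw [Pi.isUnit_iff]
        intro i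
        have : (∏ i, s.val i i) ≠ 0 := hdet.ne_zero
        rw [Finset.prod_ne_zero_iff] at this
        exact (this i (Finset.mem_univ _)).isUnit
      refine ⟨hu.unit, ?_⟩
      apply Subtype.ext
      apply Units.ext
      change diagonal (hu.unit).val = s.val
      rw [IsUnit.unit_spec, ← hsd]
  rw [← Nat.card_congr (Equiv.ofBijective f hf), Nat.card_congr (MulEquiv.piUnits).toEquiv,
    Nat.card_eq_fintype_card, Fintype.card_pi]
  simp [Fintype.card_units]

theorem card_orb (d : Fin 3 → k) (hd : Function.Injective d) :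
    Nat.card (Orb (⟨diagonal d⟩ : CM k)) =
      (Fintype.card k) ^ 3 * (Fintype.card k + 1) * ((Fintype.card k) ^ 2 + Fintype.card k + 1) := by
  classical
  have h1 := MulAction.card_orbit_mul_card_stabilizer_eq_card_group (GL (Fin 3) k)
    (⟨diagonal d⟩ : CM k)
  rw [← Nat.card_eq_fintype_card, ← Nat.card_eq_fintype_card, ← Nat.card_eq_fintype_card,
    card_stab d hd, Matrix.card_GL_field] at h1
  rw [Fin.prod_univ_three] at h1
  have hq : 2 ≤ Fintype.card k := Fintype.one_lt_card
  obtain ⟨m, hm⟩ := Nat.exists_eq_add_of_le hq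
  rw [hm] at h1 ⊢
  have e0 : (2 + m) ^ 3 - (2 + m) ^ ((0 : Fin 3) : ℕ) = (1 + m) * ((2 + m) ^ 2 + (2 + m) + 1) := by
    apply Nat.sub_eq_of_eq_add
    simp
    ring
  have e1 : (2 + m) ^ 3 - (2 + m) ^ ((1 : Fin 3) : ℕ) = (2 + m) * ((1 + m) * (2 + m + 1)) := by
    apply Nat.sub_eq_of_eq_add
    simp
    ring
  have e2 : (2 + m) ^ 3 - (2 + m) ^ ((2 : Fin 3) : ℕ) = (2 + m) ^ 2 * (1 + m) := by
    apply Nat.sub_eq_of_eq_add
    simp
    ring
  rw [e0, e1, e2] at h1
  have e3 : 2 + m - 1 = 1 + m := by omega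
  rw [e3] at h1
  have hpos : 0 < (1 + m) ^ 3 := by positivity
  apply Nat.eq_of_mul_eq_mul_right hpos
  rw [h1]
  ring

end Pool.Agent.X280.GL3
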