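import Mathlib
import Pool.Agent.X280.GL3.Lower

set_option autoImplicit false
set_option linter.unusedSectionVars false

namespace Pool.Agent.X280.GL3

open Matrix

variable (k : Type) [Field k]

/-- the quotient `k[[t]]/t²` -/
abbrev Q2 := PowerSeries k ⧸ IsLocalRing.maximalIdeal (PowerSeries k) ^ 2

theorem mem_m2 (f : PowerSeries k) : f ∈ IsLocalRing.maximalIdeal (PowerSeries k) ^ 2 ↔
    PowerSeries.coeff 0 f = 0 ∧ PowerSeries.coeff 1 f = 0 := by
  rw [PowerSeries.maximalIdeal_eq_span_X, Ideal.span_singleton_pow, Ideal.mem_span_singleton,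
    PowerSeries.X_pow_dvd_iff]
  constructor
  · intro h
    exact ⟨h 0 (by norm_num), h 1 (by norm_num)⟩
  · rintro ⟨h0, h1⟩ m hm
    interval_cases m
    · exact h0
    · exact h1

theorem coeff_one_mul' (f g : PowerSeries k) : PowerSeries.coeff 1 (f * g) =
    PowerSeries.coeff 0 f * PowerSeries.coeff 1 g + PowerSeries.coeff 1 f * PowerSeries.coeff 0 g := by
  rw [PowerSeries.coeff_mul, Finset.Nat.antidiagonal_succ]
  simp

/-- constant term -/
noncomputable def c0 : Q2 k →+* k :=
  Ideal.Quotient.lift _ (PowerSeries.constantCoeff (R := k)) (by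
    intro a ha
    have := ((mem_m2 k a).1 ha).1
    simpa using this)

/-- linear term -/
noncomputable def c1 : Q2 k →+ k :=
  QuotientAddGroup.lift _ (PowerSeries.coeff (R := k) 1).toAddMonoidHom (by
    intro a ha
    exact ((mem_m2 k a).1 ha).2)

theorem c0_mk (f : PowerSeries k) : c0 k (Ideal.Quotient.mk _ f) = PowerSeries.coeff 0 f := by
  simp [c0]

theorem c1_mk (f : PowerSeries k) : c1 k (Ideal.Quotient.mk _ f) = PowerSeries.coeff 1 f := rfl

theorem c1_mul (a b : Q2 k) : c1 k (a * b) = c0 k a * c1 k b + c1 k a * c0 k b := by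
  obtain ⟨f, rfl⟩ := Ideal.Quotient.mk_surjective a
  obtain ⟨g, rfl⟩ := Ideal.Quotient.mk_surjective b
  rw [← map_mul, c1_mk, c0_mk, c1_mk, c1_mk, c0_mk, coeff_one_mul']

theorem c1_one : c1 k 1 = 0 := by
  rw [← map_one (Ideal.Quotient.mk _), c1_mk]
  simp [PowerSeries.coeff_one]

theorem Q2_ext (a b : Q2 k) (h0 : c0 k a = c0 k b) (h1 : c1 k a = c1 k b) : a = b := by
  obtain ⟨f, rfl⟩ := Ideal.Quotient.mk_surjective a
  obtain ⟨g, rfl⟩ := Ideal.Quotient.mk_surjective b
  rw [c0_mk, c0_mk] at h0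
  rw [c1_mk, c1_mk] at h1
  rw [Ideal.Quotient.eq, mem_m2, map_sub, map_sub, h0, h1]
  simp

/-- the element `x + y t` -/
noncomputable def mk2 (x y : k) : Q2 k :=
  Ideal.Quotient.mk _ (PowerSeries.C x + PowerSeries.C y * PowerSeries.X)

@[simp] theorem c0_mk2 (x y : k) : c0 k (mk2 k x y) = x := by
  rw [mk2, c0_mk]
  simp

@[simp] theorem c1_mk2 (x y : k) : c1 k (mk2 k x y) = y := by
  rw [mk2, c1_mk]
  simp [PowerSeries.coeff_C]

/-- constant term matrices -/
noncomputable def π0 : GL (Fin 3) (Q2 k) →* GL (Fin 3) k := Matrix.GeneralLinearGroup.map (c0 k)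

theorem π0_val (g : GL (Fin 3) (Q2 k)) : (π0 k g).val = g.val.map (c0 k) := rfl

theorem map_c1_mul (A B : Matrix (Fin 3) (Fin 3) (Q2 k)) :
    (A * B).map (c1 k) = A.map (c0 k) * B.map (c1 k) + A.map (c1 k) * B.map (c0 k) := by
  ext i j
  simp only [Matrix.map_apply, Matrix.mul_apply, Matrix.add_apply, map_sum, c1_mul,
    Finset.sum_add_distrib]

/-- the matrix `s + X s t` -/
noncomputable def liftM (s X : Matrix (Fin 3) (Fin 3) k) : Matrix (Fin 3) (Fin 3) (Q2 k) :=
  Matrix.of fun i j => mk2 k (s i j) (X i j)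

theorem liftM_c0 (s X : Matrix (Fin 3) (Fin 3) k) : (liftM k s X).map (c0 k) = s := by
  ext i j
  simp [liftM]

theorem liftM_c1 (s X : Matrix (Fin 3) (Fin 3) k) : (liftM k s X).map (c1 k) = X := by
  ext i j
  simp [liftM]

theorem mat_ext (A B : Matrix (Fin 3) (Fin 3) (Q2 k)) (h0 : A.map (c0 k) = B.map (c0 k))
    (h1 : A.map (c1 k) = B.map (c1 k)) : A = B := by
  ext i j
  apply Q2_ext
  · exact congrFun (congrFun h0 i) j
  · exact congrFun (congrFun h1 i) j

theorem one_c0 : (1 : Matrix (Fin 3) (Fin 3) (Q2 k)).map (c0 k) = 1 := by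
  ext i j
  simp only [Matrix.map_apply, Matrix.one_apply]
  split_ifs <;> simp

theorem one_c1 : (1 : Matrix (Fin 3) (Fin 3) (Q2 k)).map (c1 k) = 0 := by
  ext i j
  simp only [Matrix.map_apply, Matrix.one_apply, Matrix.zero_apply]
  split_ifs
  · exact c1_one k
  · simp

theorem map_c0_mul (A B : Matrix (Fin 3) (Fin 3) (Q2 k)) :
    (A * B).map (c0 k) = A.map (c0 k) * B.map (c0 k) := Matrix.map_mul

/-- `(1 + X t) s` as a unit -/
noncomputable def liftG (s : GL (Fin 3) k) (X : Matrix (Fin 3) (Fin 3) k) : GL (Fin 3) (Q2 k) where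
  val := liftM k s.val (X * s.val)
  inv := liftM k (s⁻¹).val (-((s⁻¹).val * X))
  val_inv := by
    have h1 : s.val * (s⁻¹).val = 1 := by rw [← Units.val_mul, mul_inv_cancel, Units.val_one]
    apply mat_ext
    · rw [map_c0_mul, liftM_c0, liftM_c0, one_c0, h1]
    · rw [map_c1_mul, liftM_c0, liftM_c1, liftM_c0, liftM_c1, one_c1, Matrix.mul_neg,
        ← Matrix.mul_assoc, h1, Matrix.mul_assoc X, h1]
      simp
  inv_val := by
    have h1 : (s⁻¹).val * s.val = 1 := by rw [← Units.val_mul, inv_mul_cancel, Units.val_one]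
    apply mat_ext
    · rw [map_c0_mul, liftM_c0, liftM_c0, one_c0, h1]
    · rw [map_c1_mul, liftM_c0, liftM_c1, liftM_c0, liftM_c1, one_c1, Matrix.neg_mul,
        Matrix.mul_assoc]
      simp

theorem liftG_val (s : GL (Fin 3) k) (X : Matrix (Fin 3) (Fin 3) k) :
    (liftG k s X).val = liftM k s.val (X * s.val) := rfl

/-- The structure of `GL₃(k[[t]]/t²)`. -/
noncomputable def theExt : Ext k (GL (Fin 3) (Q2 k)) where
  π := π0 k
  δ g := g.val.map (c1 k) * ((π0 k g)⁻¹).val
  hδ g g' := by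
    have h1 : (π0 k g').val * ((π0 k g')⁻¹).val = 1 := by
      rw [← Units.val_mul, mul_inv_cancel, Units.val_one]
    rw [Units.val_mul, map_c1_mul, map_mul, _root_.mul_inv_rev, Units.val_mul, ← π0_val, ← π0_val,
      Matrix.add_mul, add_comm]
    congr 1
    · calc g.val.map (c1 k) * (π0 k g').val * (((π0 k g')⁻¹).val * ((π0 k g)⁻¹).val)
          = g.val.map (c1 k) * ((π0 k g').val * ((π0 k g')⁻¹).val) * ((π0 k g)⁻¹).val := by
            simp only [Matrix.mul_assoc]
        _ = _ := by rw [h1, Matrix.mul_one]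
    · simp only [Matrix.mul_assoc]
  lift s X := liftG k s X
  π_lift s X := by
    apply Units.ext
    rw [π0_val, liftG_val, liftM_c0]
  δ_lift s X := by
    have h0 : π0 k (liftG k s X) = s := by
      apply Units.ext
      rw [π0_val, liftG_val, liftM_c0]
    have h1 : s.val * (s⁻¹).val = 1 := by rw [← Units.val_mul, mul_inv_cancel, Units.val_one]
    rw [h0, liftG_val, liftM_c1, Matrix.mul_assoc, h1, Matrix.mul_one]
  ext' g g' h h' := by
    apply Units.ext
    apply mat_ext
    · rw [← π0_val, ← π0_val, h]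
    · rw [h] at h'
      have h1 : ((π0 k g')⁻¹).val * (π0 k g').val = 1 := by
        rw [← Units.val_mul, inv_mul_cancel, Units.val_one]
      have h2 := congrArg (fun M => M * (π0 k g').val) h'
      simpa only [Matrix.mul_assoc, h1, Matrix.mul_one] using h2

theorem tr_val (X : Matrix (Fin 3) (Fin 3) k) (i j : Fin 3) :
    ((theExt k).tr X).val i j - (1 : Matrix (Fin 3) (Fin 3) (Q2 k)) i j =
      Ideal.Quotient.mk _ (PowerSeries.C (X i j) * PowerSeries.X) := by
  apply Q2_ext
  · rw [map_sub, c0_mk]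
    have h1 : c0 k (((theExt k).tr X).val i j) = (1 : Matrix (Fin 3) (Fin 3) k) i j := by
      have := congrArg Units.val ((theExt k).π_tr X)
      exact congrFun (congrFun this i) j
    have h2 : c0 k ((1 : Matrix (Fin 3) (Fin 3) (Q2 k)) i j) = (1 : Matrix (Fin 3) (Fin 3) k) i j :=
      congrFun (congrFun (one_c0 k) i) j
    rw [h1, h2]
    simp
  · rw [map_sub, c1_mk]
    have h1 : c1 k (((theExt k).tr X).val i j) = X i j := by
      change c1 k ((liftG k 1 X).val i j) = _
      rw [liftG_val]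
      simp [liftM]
    have h2 : c1 k ((1 : Matrix (Fin 3) (Fin 3) (Q2 k)) i j) = 0 :=
      congrFun (congrFun (one_c1 k) i) j
    rw [h1, h2]
    simp

end Pool.Agent.X280.GL3
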